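import Mathlib
import Pool.Agent.Y875.UE.Stm2

/-!
# Project UE: the 2-adic logarithm (job SER + QLOG)
-/

set_option autoImplicit false

namespace Pool.Agent.Y899.UE

open Finset Pool.Agent.W289.SL Pool.Agent.Y875.UE

theorem norm_two2 : ‖(2 : ℂ_[2])‖ = 2⁻¹ := by
  have h := norm_p (p := 2)
  push_cast at h
  exact h

/-- SER -/
theorem t1 : S_SER := by
  intro L hL y hy ε hε
  have h2 : ‖2 * y‖ < 1 := by
    rw [norm_mul, norm_two2]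
    linarith
  have h3 := (hL.ser (2 * y) h2).div_const 2
  have h4 := h3.tendsto_sum_nat
  have h5 : ∀ n : ℕ, ∑ i ∈ range n, (-1 : ℂ_[2]) ^ i * (2 * y) ^ (i + 1) / ((i : ℂ_[2]) + 1) / 2 =
      ∑ i ∈ range n, (-2) ^ i / ((i : ℂ_[2]) + 1) * y ^ (i + 1) := by
    intro n
    refine Finset.sum_congr rfl fun i _ => ?_
    have e1 : (-2 : ℂ_[2]) ^ i = (-1) ^ i * 2 ^ i := by
      rw [← mul_pow]
      norm_num
    have e2 : ((i : ℂ_[2]) + 1) ≠ 0 := by exact_mod_cast Nat.succ_ne_zero i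
    rw [e1, mul_pow, pow_succ (2 : ℂ_[2]) i]
    field_simp
  simp only [h5] at h4
  obtain ⟨n₀, hn⟩ := Metric.tendsto_atTop.1 h4 ε hε
  refine ⟨n₀, fun n h => ?_⟩
  have h6 := (hn n h).le
  rw [dist_eq_norm, norm_sub_rev] at h6
  exact h6

/-- QLOG -/
theorem t2 : S_QLOG := by
  intro L hL q e u k f M hlev
  have hk := hlev.hk
  have hM1 : 1 ≤ M := hlev.hM.pos
  have hf0 : f ≠ 0 := by
    rintro rfl
    have h1 := hlev.card
    rw [pow_zero] at h1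
    have : 0 < 2 ^ k * M := by positivity
    omega
  have hq0 : (q : ℂ_[2]) ≠ 0 := by exact_mod_cast hlev.prime.ne_zero
  -- the order is a power of two
  have hdvd : f ∣ 2 ^ (k - 1) := by
    have hc : Nat.Coprime q (2 ^ k) := Nat.Coprime.pow_right k hlev.odd.coprime_two_right
    have h1 : orderOf (ZMod.unitOfCoprime q hc) = f := by
      rw [← hlev.ord, ← orderOf_units, ZMod.coe_unitOfCoprime]
    rw [← h1]
    have h2 := orderOf_dvd_card (x := ZMod.unitOfCoprime q hc)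
    rw [ZMod.card_units_eq_totient, Nat.totient_prime_pow Nat.prime_two (by omega)] at h2
    rwa [show 2 ^ (k - 1) * (2 - 1) = 2 ^ (k - 1) by norm_num] at h2
  have hfn : (2⁻¹ : ℝ) ^ (k - 1) ≤ ‖(f : ℂ_[2])‖ := by
    obtain ⟨g, hg⟩ := hdvd
    have h1 : ((2 : ℂ_[2]) ^ (k - 1)) = f * g := by exact_mod_cast hg
    have h2 : ‖(2 : ℂ_[2]) ^ (k - 1)‖ = (2⁻¹ : ℝ) ^ (k - 1) := by rw [norm_pow, norm_two2]
    rw [← h2, h1, norm_mul]
    exact mul_le_of_le_one_right (norm_nonneg _) (norm_natCast_le g)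
  have hfpos : 0 < ‖(f : ℂ_[2])‖ := lt_of_lt_of_le (by positivity) hfn
  set zz : ℂ_[2] := 2 ^ k * M with hzz
  have hzn : ‖zz‖ ≤ (2⁻¹ : ℝ) ^ k := by
    rw [hzz, norm_mul, norm_pow, norm_two2]
    exact mul_le_of_le_one_right (by positivity) (norm_natCast_le M)
  have h8 : (2⁻¹ : ℝ) ^ k ≤ 1 / 8 := by
    calc (2⁻¹ : ℝ) ^ k ≤ (2⁻¹ : ℝ) ^ 3 := pow_le_pow_of_le_one (by norm_num) (by norm_num) hk
      _ = 1 / 8 := by norm_num
  have h9 := hL.approx (hzn.trans h8)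
  have h10 : L (1 + zz) = f * L q := by
    rw [← hL.pow hq0 f]
    congr 1
    have : ((q : ℂ_[2]) ^ f) = 2 ^ k * M + 1 := by exact_mod_cast hlev.card
    rw [this, add_comm]
  rw [h10] at h9
  have hf0' : (f : ℂ_[2]) ≠ 0 := by exact_mod_cast hf0
  have h11 : L (q : ℂ_[2]) / 4 - zz / (4 * f) = (f * L q - zz) / (4 * f) := by
    field_simp
  have h4 : ‖(4 : ℂ_[2])‖ = 1 / 4 := by
    have : (4 : ℂ_[2]) = 2 ^ 2 := by norm_num
    rw [this, norm_pow, norm_two2]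
    norm_num
  rw [h11, norm_div, norm_mul, h4, div_le_iff₀ (by positivity)]
  have h12 : (2⁻¹ : ℝ) ^ (k - 2) = 4 * (2⁻¹ : ℝ) ^ k := by
    obtain ⟨j, rfl⟩ : ∃ j, k = j + 2 := ⟨k - 2, by omega⟩
    rw [Nat.add_sub_cancel, pow_add]
    ring
  have h13 : (2⁻¹ : ℝ) ^ (k - 1) = 2 * (2⁻¹ : ℝ) ^ k := by
    obtain ⟨j, rfl⟩ : ∃ j, k = j + 1 := ⟨k - 1, by omega⟩
    rw [Nat.add_sub_cancel, pow_add]
    ring
  rw [h12]
  rw [h13] at hfn
  have hx : 0 ≤ (2⁻¹ : ℝ) ^ k := by positivity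
  calc ‖f * L q - zz‖ ≤ 2 * ‖zz‖ ^ 2 := h9
    _ ≤ 2 * ((2⁻¹ : ℝ) ^ k) ^ 2 := by gcongr
    _ = (2⁻¹ : ℝ) ^ k * (2 * (2⁻¹ : ℝ) ^ k) := by ring
    _ ≤ (2⁻¹ : ℝ) ^ k * ‖(f : ℂ_[2])‖ := by gcongr
    _ = 4 * (2⁻¹ : ℝ) ^ k * (1 / 4 * ‖(f : ℂ_[2])‖) := by ring

end Pool.Agent.Y899.UE
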